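import Mathlib
import Pool.Agent.W76.MO.Stmts

set_option autoImplicit false

/-! # Task MO-NRH: if RH fails, `(-1)^(n+1) n^(-α)` is an MO function with small partial sums -/

namespace Pool.Agent.W86.MO

open Complex Filter Topology MeasureTheory Finset
open Pool.Agent.W76.MO

/-- if there is no zero to the right of the critical line then RH holds -/
theorem RH_of (h : ∀ s : ℂ, 1 / 2 < s.re → s ≠ 1 → riemannZeta s ≠ 0) : RiemannHypothesis := by
  intro s hs htriv h1
  by_contra hne
  rcases lt_or_gt_of_ne hne with hlt | hgt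
  · by_cases h0 : s.re < 0
    · have h2 : ∀ n : ℕ, (1 - s) ≠ -n := by
        intro n hn
        have := congrArg Complex.re hn
        simp at this
        have : (0:ℝ) ≤ n := Nat.cast_nonneg n
        linarith
      have h3 : (1 - s) ≠ 1 := by
        intro h3
        have := congrArg Complex.re h3
        simp at this
        linarith
      have key := riemannZeta_one_sub h2 h3
      rw [sub_sub_cancel, hs] at key
      have hz : riemannZeta (1 - s) ≠ 0 := riemannZeta_ne_zero_of_one_lt_re (by simp; linarith)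
      have hG : Complex.Gamma (1 - s) ≠ 0 := Complex.Gamma_ne_zero h2
      have hp : (2 * (Real.pi : ℂ)) ^ (-(1 - s)) ≠ 0 := by
        rw [Complex.cpow_ne_zero_iff]
        left
        have := Real.pi_ne_zero
        simpa using this
      have hc : Complex.cos (Real.pi * (1 - s) / 2) = 0 := by
        by_contra hc
        exact (mul_ne_zero (mul_ne_zero (mul_ne_zero (mul_ne_zero two_ne_zero hp) hG) hc) hz) key.symm
      rw [Complex.cos_eq_zero_iff] at hc
      obtain ⟨k, hk⟩ := hc
      have hpi : (Real.pi : ℂ) ≠ 0 := by exact_mod_cast Real.pi_ne_zero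
      have hs2 : s = -2 * (k : ℂ) := by
        field_simp at hk
        linear_combination (-1 : ℂ) * hk
      have hkpos : 0 < k := by
        have := congrArg Complex.re hs2
        simp at this
        have h5 : (0:ℝ) < k := by linarith
        exact_mod_cast h5
      apply htriv
      refine ⟨(k - 1).toNat, ?_⟩
      have h6 : (((k - 1).toNat : ℕ) : ℂ) = (k : ℂ) - 1 := by
        have : (((k - 1).toNat : ℤ)) = k - 1 := Int.toNat_of_nonneg (by omega)
        have h7 : (((k - 1).toNat : ℤ) : ℂ) = ((k - 1 : ℤ) : ℂ) := by rw [this]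
        push_cast at h7
        exact_mod_cast h7
      rw [h6, hs2]
      ring
    · have h2 : ∀ n : ℕ, s ≠ -n := by
        intro n hn
        rcases Nat.eq_zero_or_pos n with h5 | h5
        · rw [hn, h5] at hs
          simp [riemannZeta_zero] at hs
        · have := congrArg Complex.re hn
          simp at this
          have h6 : (1:ℝ) ≤ n := by exact_mod_cast h5
          linarith
      have key := riemannZeta_one_sub h2 h1
      rw [hs, mul_zero] at key
      refine h (1 - s) (by simp; linarith) ?_ key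
      intro h3
      have : s = 0 := by linear_combination -h3
      rw [this] at hs
      simp [riemannZeta_zero] at hs
  · exact h s (by linarith) h1 hs

theorem exists_zero (h : ¬ RiemannHypothesis) :
    ∃ α : ℂ, 1 / 2 < α.re ∧ α.re < 1 ∧ riemannZeta α = 0 := by
  by_contra hcon
  push Not at hcon
  apply h
  apply RH_of
  intro s hs _ h0
  exact hcon s hs (by
    by_contra h2
    exact riemannZeta_ne_zero_of_one_le_re (not_lt.1 h2) h0) h0

/-- the sum over `n` of `(-1)^n / (n+1)^s`, `Re s > 1` -/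
theorem eta_zeta {s : ℂ} (hs : 1 < s.re) :
    ∑' k : ℕ, (1 / (((2 * k : ℕ) : ℂ) + 1) ^ s - 1 / (((2 * k + 1 : ℕ) : ℂ) + 1) ^ s) =
      (1 - (2 : ℂ) ^ (1 - s)) * riemannZeta s := by
  have hsum : Summable (fun n : ℕ => 1 / ((n : ℂ) + 1) ^ s) := by
    have h1 := (summable_nat_add_iff 1).2 (Complex.summable_one_div_nat_cpow.2 hs)
    refine h1.congr fun n => ?_
    push_cast
    rfl
  have hz := zeta_eq_tsum_one_div_nat_add_one_cpow hs
  have he : Summable (fun k : ℕ => 1 / (((2 * k : ℕ) : ℂ) + 1) ^ s) :=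
    hsum.comp_injective (fun a b h => by
      have h' : 2 * a = 2 * b := h
      omega)
  have ho : Summable (fun k : ℕ => 1 / (((2 * k + 1 : ℕ) : ℂ) + 1) ^ s) :=
    hsum.comp_injective (i := fun k : ℕ => 2 * k + 1) (fun a b h => by
      have h' : 2 * a + 1 = 2 * b + 1 := h
      omega)
  have h2 := tsum_even_add_odd (f := fun n : ℕ => 1 / ((n : ℂ) + 1) ^ s) he ho
  have h6 : ∑' k : ℕ, 1 / (((2 * k + 1 : ℕ) : ℂ) + 1) ^ s = (2 : ℂ) ^ (-s) * riemannZeta s := by
    rw [hz, ← tsum_mul_left]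
    refine tsum_congr fun k => ?_
    have h7 : (((2 * k + 1 : ℕ) : ℂ) + 1) = ((2 : ℕ) : ℂ) * ((k + 1 : ℕ) : ℂ) := by
      push_cast; ring
    rw [h7, Complex.natCast_mul_natCast_cpow, Complex.cpow_neg]
    push_cast
    field_simp
  have h8 : (2 : ℂ) ^ (1 - s) = 2 * (2 : ℂ) ^ (-s) := by
    rw [sub_eq_add_neg, Complex.cpow_add _ _ two_ne_zero, Complex.cpow_one]
  have h10 := he.tsum_sub ho
  rw [h10]
  rw [← hz] at h2
  rw [h6] at h2 ⊢
  rw [h8]
  linear_combination h2

/-- difference of two consecutive terms -/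
theorem diff_bound (s : ℂ) (σ : ℝ) (hσ : 0 < σ) (hs : σ ≤ s.re) (n : ℕ) (hn : 1 ≤ n) :
    ‖(1 : ℂ) / (n : ℂ) ^ s - 1 / ((n : ℂ) + 1) ^ s‖ ≤
      ‖s‖ / σ * ((n : ℝ) ^ (-σ) - ((n : ℝ) + 1) ^ (-σ)) := by
  have hn0 : (0 : ℝ) < n := by exact_mod_cast hn
  have hs0 : s ≠ 0 := by
    rintro rfl
    simp at hs
    linarith
  have h1 : (1 : ℂ) / (n : ℂ) ^ s - 1 / ((n : ℂ) + 1) ^ s =
      s * ∫ x in (n : ℝ)..(n + 1 : ℝ), (x : ℂ) ^ (-s - 1) := by
    rw [integral_cpow]
    · rw [show -s - 1 + 1 = -s by ring, Complex.cpow_neg, Complex.cpow_neg]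
      push_cast
      field_simp
      ring
    · right
      constructor
      · intro h
        apply hs0
        linear_combination -h
      · rw [Set.uIcc_of_le (by linarith)]
        intro h
        have := h.1
        linarith
  rw [h1, norm_mul]
  have h2 : ‖∫ x in (n : ℝ)..(n + 1 : ℝ), (x : ℂ) ^ (-s - 1)‖ ≤
      ∫ x in (n : ℝ)..(n + 1 : ℝ), x ^ (-σ - 1) := by
    apply intervalIntegral.norm_integral_le_of_norm_le (by linarith)
    · filter_upwards with x hx
      have hx0 : 0 < x := hn0.trans hx.1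
      have hx1 : 1 ≤ x := by
        have : (1 : ℝ) ≤ n := by exact_mod_cast hn
        linarith [hx.1]
      rw [Complex.norm_cpow_eq_rpow_re_of_pos hx0]
      apply Real.rpow_le_rpow_of_exponent_le hx1
      simp
      linarith
    · apply intervalIntegral.intervalIntegrable_rpow
      right
      rw [Set.uIcc_of_le (by linarith)]
      intro h
      linarith [h.1]
  have h3 : ∫ x in (n : ℝ)..(n + 1 : ℝ), x ^ (-σ - 1) =
      1 / σ * ((n : ℝ) ^ (-σ) - ((n : ℝ) + 1) ^ (-σ)) := by
    rw [integral_rpow]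
    · rw [show -σ - 1 + 1 = -σ by ring]
      field_simp
      ring
    · right
      constructor
      · intro h
        linarith
      · rw [Set.uIcc_of_le (by linarith)]
        intro h
        have := h.1
        linarith
  calc ‖s‖ * ‖∫ x in (n : ℝ)..(n + 1 : ℝ), (x : ℂ) ^ (-s - 1)‖
      ≤ ‖s‖ * (1 / σ * ((n : ℝ) ^ (-σ) - ((n : ℝ) + 1) ^ (-σ))) := by
        rw [← h3]
        exact mul_le_mul_of_nonneg_left h2 (norm_nonneg _)
    _ = _ := by ring

/-- the `k`-th pair -/
noncomputable def pr (s : ℂ) (k : ℕ) : ℂ :=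
  1 / (((2 * k : ℕ) : ℂ) + 1) ^ s - 1 / (((2 * k + 1 : ℕ) : ℂ) + 1) ^ s

/-- `n ^ (-σ)` at the odd numbers -/
noncomputable def od (σ : ℝ) (k : ℕ) : ℝ := ((2 * k + 1 : ℕ) : ℝ) ^ (-σ)

theorem od_nonneg (σ : ℝ) (k : ℕ) : 0 ≤ od σ k := Real.rpow_nonneg (Nat.cast_nonneg _) _

theorem pr_bound (s : ℂ) (σ : ℝ) (hσ : 0 < σ) (hs : σ ≤ s.re) (k : ℕ) :
    ‖pr s k‖ ≤ ‖s‖ / σ * (od σ k - od σ (k + 1)) := by
  have h := diff_bound s σ hσ hs (2 * k + 1) (by omega)
  have e1 : pr s k = 1 / ((2 * k + 1 : ℕ) : ℂ) ^ s - 1 / (((2 * k + 1 : ℕ) : ℂ) + 1) ^ s := by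
    unfold pr
    push_cast
    rfl
  rw [e1]
  refine h.trans ?_
  apply mul_le_mul_of_nonneg_left _ (div_nonneg (norm_nonneg _) hσ.le)
  unfold od
  have h2 : ((2 * (k + 1) + 1 : ℕ) : ℝ) ^ (-σ) ≤ (((2 * k + 1 : ℕ) : ℝ) + 1) ^ (-σ) := by
    apply Real.rpow_le_rpow_of_nonpos (by positivity) _ (by linarith)
    push_cast
    linarith
  linarith

theorem sum_bound (s : ℂ) (σ : ℝ) (hσ : 0 < σ) (hs : σ ≤ s.re) (K m : ℕ) :
    ∑ k ∈ range m, ‖pr s (K + k)‖ ≤ ‖s‖ / σ * od σ K := by
  have h1 : ∑ k ∈ range m, ‖pr s (K + k)‖ ≤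
      ∑ k ∈ range m, (‖s‖ / σ * (od σ (K + k) - od σ (K + (k + 1)))) := by
    apply Finset.sum_le_sum
    intro k _
    exact pr_bound s σ hσ hs (K + k)
  refine h1.trans ?_
  rw [← Finset.mul_sum, Finset.sum_range_sub' (fun k => od σ (K + k))]
  apply mul_le_mul_of_nonneg_left _ (div_nonneg (norm_nonneg _) hσ.le)
  have := od_nonneg σ (K + m)
  simp only [add_zero]
  linarith

theorem od_summable (σ : ℝ) : Summable (fun k => od σ k - od σ (k + 1)) ∨ σ ≤ 0 := by
  by_cases h : σ ≤ 0
  · exact Or.inr h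
  · left
    apply summable_of_sum_range_le (c := od σ 0)
    · intro k
      have h2 : od σ (k + 1) ≤ od σ k := by
        unfold od
        apply Real.rpow_le_rpow_of_nonpos (by positivity) _ (by linarith)
        push_cast
        linarith
      linarith
    · intro n
      rw [Finset.sum_range_sub']
      have := od_nonneg σ n
      linarith

theorem pr_summable (s : ℂ) (hs : 0 < s.re) : Summable (pr s) := by
  apply Summable.of_norm
  rcases od_summable s.re with h | h
  · exact Summable.of_nonneg_of_le (fun _ => norm_nonneg _) (fun k => pr_bound s s.re hs le_rfl k)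
      (h.mul_left _)
  · linarith

/-- the alternating zeta function on `Re s > 0` -/
noncomputable def G (s : ℂ) : ℂ := ∑' k, pr s k

theorem pr_differentiable (k : ℕ) : Differentiable ℂ (fun s => pr s k) := by
  unfold pr
  have h1 : ((2 * k : ℕ) : ℂ) + 1 ≠ 0 := by exact_mod_cast (Nat.succ_ne_zero (2 * k))
  have h2 : ((2 * k + 1 : ℕ) : ℂ) + 1 ≠ 0 := by exact_mod_cast (Nat.succ_ne_zero (2 * k + 1))
  apply Differentiable.sub
  · apply Differentiable.div (differentiable_const _) _ (fun s => by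
      rw [Complex.cpow_ne_zero_iff]; exact Or.inl h1)
    exact (differentiable_id).const_cpow (Or.inl h1)
  · apply Differentiable.div (differentiable_const _) _ (fun s => by
      rw [Complex.cpow_ne_zero_iff]; exact Or.inl h2)
    exact (differentiable_id).const_cpow (Or.inl h2)

theorem G_differentiableOn : DifferentiableOn ℂ G {s : ℂ | 0 < s.re} := by
  intro s hs
  have hs' : 0 < s.re := hs
  set U : Set ℂ := {w : ℂ | s.re / 2 < w.re} ∩ Metric.ball 0 (‖s‖ + 1) with hU
  have hUo : IsOpen U := (isOpen_lt continuous_const Complex.continuous_re).inter Metric.isOpen_ball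
  have hsU : s ∈ U := ⟨by show s.re / 2 < s.re; linarith, by simp⟩
  rcases od_summable (s.re / 2) with h | h
  · have h2 : DifferentiableOn ℂ (fun w => ∑' k, pr w k) U := by
      apply Complex.differentiableOn_tsum_of_summable_norm
        (u := fun k => (‖s‖ + 1) / (s.re / 2) * (od (s.re / 2) k - od (s.re / 2) (k + 1)))
        (h.mul_left _)
      · intro k
        exact (pr_differentiable k).differentiableOn
      · exact hUo
      · intro k w hw
        refine (pr_bound w (s.re / 2) (by linarith) (le_of_lt hw.1) k).trans ?_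
        have h3 : ‖w‖ ≤ ‖s‖ + 1 := by
          have := hw.2
          rw [mem_ball_zero_iff] at this
          exact this.le
        have h4 : 0 ≤ od (s.re / 2) k - od (s.re / 2) (k + 1) := by
          have h5 : od (s.re / 2) (k + 1) ≤ od (s.re / 2) k := by
            unfold od
            apply Real.rpow_le_rpow_of_nonpos (by positivity) _ (by linarith)
            push_cast
            linarith
          linarith
        gcongr
    exact ((h2 s hsU).differentiableAt (hUo.mem_nhds hsU)).differentiableWithinAt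
  · linarith

/-- `(s-1) ζ(s)` -/
noncomputable def Z : ℂ → ℂ := Function.update (fun s => (s - 1) * riemannZeta s) 1 1

theorem Z_differentiable : Differentiable ℂ Z := by
  have h1 : ∀ s : ℂ, s ≠ 1 → DifferentiableAt ℂ Z s := by
    intro s hs
    have h2 : DifferentiableAt ℂ (fun s => (s - 1) * riemannZeta s) s :=
      ((differentiableAt_id.sub_const 1)).mul (differentiableAt_riemannZeta hs)
    apply h2.congr_of_eventuallyEq
    filter_upwards [isOpen_ne.mem_nhds hs] with w hw
    unfold Z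
    rw [Function.update_of_ne hw]
  intro s
  by_cases hs : s = 1
  · subst hs
    have h3 : AnalyticAt ℂ Z 1 := by
      apply Complex.analyticAt_of_differentiable_on_punctured_nhds_of_continuousAt
      · filter_upwards [self_mem_nhdsWithin] with w hw
        exact h1 w hw
      · unfold Z
        rw [continuousAt_update_same]
        exact riemannZeta_residue_one
    exact h3.differentiableAt
  · exact h1 s hs

theorem key_eq (s : ℂ) (hs : 0 < s.re) : (s - 1) * G s = (1 - (2 : ℂ) ^ (1 - s)) * Z s := by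
  have hopen : IsOpen {s : ℂ | 0 < s.re} := isOpen_lt continuous_const Complex.continuous_re
  have hf : AnalyticOnNhd ℂ (fun s => (s - 1) * G s) {s : ℂ | 0 < s.re} := by
    apply DifferentiableOn.analyticOnNhd _ hopen
    exact ((differentiable_id.sub_const 1).differentiableOn).mul G_differentiableOn
  have hg : AnalyticOnNhd ℂ (fun s => (1 - (2 : ℂ) ^ (1 - s)) * Z s) {s : ℂ | 0 < s.re} := by
    apply DifferentiableOn.analyticOnNhd _ hopen
    apply Differentiable.differentiableOn
    apply Differentiable.mul _ Z_differentiable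
    apply (differentiable_const _).sub
    exact ((differentiable_const _).sub differentiable_id).const_cpow (Or.inl two_ne_zero)
  have hpre : IsPreconnected {s : ℂ | 0 < s.re} :=
    (convex_halfSpace_re_gt 0).isPreconnected
  have h2 : (2 : ℂ) ∈ {s : ℂ | 0 < s.re} := by simp
  have heq : (fun s => (s - 1) * G s) =ᶠ[𝓝 (2 : ℂ)] (fun s => (1 - (2 : ℂ) ^ (1 - s)) * Z s) := by
    have hop2 : IsOpen {s : ℂ | 1 < s.re} := isOpen_lt continuous_const Complex.continuous_re
    filter_upwards [hop2.mem_nhds (show (2 : ℂ) ∈ {s : ℂ | 1 < s.re} by simp)] with w hw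
    have hw' : 1 < w.re := hw
    have h3 : G w = (1 - (2 : ℂ) ^ (1 - w)) * riemannZeta w := eta_zeta hw'
    have h4 : w ≠ 1 := by
      rintro rfl
      simp at hw'
    unfold Z
    rw [h3, Function.update_of_ne h4]
    ring
  exact hf.eqOn_of_preconnected_of_eventuallyEq hg hpre h2 heq hs

theorem G_zero (α : ℂ) (h0 : 0 < α.re) (h1 : α.re < 1) (hz : riemannZeta α = 0) : G α = 0 := by
  have hne : α ≠ 1 := by
    rintro rfl
    simp at h1
  have h := key_eq α h0
  unfold Z at h
  rw [Function.update_of_ne hne, hz, mul_zero, mul_zero] at h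
  rcases mul_eq_zero.1 h with h2 | h2
  · exact absurd (sub_eq_zero.1 h2) hne
  · exact h2

/-- the function `(-1)^(n+1) n^(-α)` -/
noncomputable def F (α : ℂ) (n : ℕ) : ℂ := (-1 : ℂ) ^ (n + 1) * (n : ℂ) ^ (-α)

theorem sum_even (α : ℂ) (K : ℕ) : ∑ n ∈ Icc 1 (2 * K), F α n = ∑ k ∈ range K, pr α k := by
  induction K with
  | zero => simp
  | succ K ih =>
    rw [Finset.sum_range_succ, ← ih, show 2 * (K + 1) = 2 * K + 1 + 1 by ring,
      Finset.sum_Icc_succ_top (by omega), Finset.sum_Icc_succ_top (by omega)]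
    unfold F pr
    have e1 : (-1 : ℂ) ^ (2 * K + 1 + 1) = 1 := by
      rw [show 2 * K + 1 + 1 = 2 * (K + 1) by ring, pow_mul]; simp
    have e2 : (-1 : ℂ) ^ (2 * K + 1 + 1 + 1) = -1 := by
      rw [pow_succ, e1]; simp
    rw [e1, e2, Complex.cpow_neg, Complex.cpow_neg]
    push_cast
    ring

theorem tail_bound (α : ℂ) (h0 : 0 < α.re) (hG : G α = 0) (K : ℕ) :
    ‖∑ k ∈ range K, pr α k‖ ≤ ‖α‖ / α.re * od α.re K := by
  have hs := pr_summable α h0
  have h1 : Tendsto (fun m => ∑ k ∈ range m, pr α (K + k)) atTop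
      (𝓝 (-(∑ k ∈ range K, pr α k))) := by
    have h2 : HasSum (pr α) 0 := by
      have := hs.hasSum
      rwa [show ∑' k, pr α k = 0 from hG] at this
    have h3 := (hasSum_nat_add_iff' (f := pr α) K).2 h2
    rw [zero_sub] at h3
    have h4 := h3.tendsto_sum_nat
    refine h4.congr fun m => ?_
    apply Finset.sum_congr rfl
    intro k _
    rw [add_comm]
  have h5 := h1.norm
  rw [norm_neg] at h5
  apply le_of_tendsto h5
  filter_upwards with m
  exact (norm_sum_le _ _).trans (sum_bound α α.re h0 le_rfl K m)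

theorem F_norm (α : ℂ) (n : ℕ) (hn : 1 ≤ n) : ‖F α n‖ = (n : ℝ) ^ (-α.re) := by
  unfold F
  rw [norm_mul, norm_pow, norm_neg, norm_one, one_pow, one_mul,
    Complex.norm_natCast_cpow_of_pos hn]
  simp

theorem partial_bound (α : ℂ) (h0 : 0 < α.re) (hG : G α = 0) (N : ℕ) (hN : 1 ≤ N) :
    ‖∑ n ∈ Icc 1 N, F α n‖ ≤ (‖α‖ / α.re + 1) * (N : ℝ) ^ (-α.re) := by
  have hC : 0 ≤ ‖α‖ / α.re := div_nonneg (norm_nonneg _) h0.le
  rcases Nat.even_or_odd' N with ⟨K, hK | hK⟩
  · rw [hK, sum_even]
    refine (tail_bound α h0 hG K).trans ?_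
    have hK1 : 1 ≤ K := by omega
    have h1 : od α.re K ≤ ((2 * K : ℕ) : ℝ) ^ (-α.re) := by
      unfold od
      apply Real.rpow_le_rpow_of_nonpos _ _ (by linarith)
      · exact_mod_cast (by omega : 0 < 2 * K)
      · push_cast
        linarith
    have h2 : 0 ≤ ((2 * K : ℕ) : ℝ) ^ (-α.re) := Real.rpow_nonneg (Nat.cast_nonneg _) _
    nlinarith
  · rw [hK, Finset.sum_Icc_succ_top (by omega), sum_even]
    refine (norm_add_le _ _).trans ?_
    have h1 := tail_bound α h0 hG K
    have h2 := F_norm α (2 * K + 1) (by omega)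
    rw [h2]
    unfold od at h1
    linarith

theorem F_mul (α : ℂ) (m n : ℕ) (_ : 1 ≤ m) (_ : 1 ≤ n) (hc : Nat.Coprime m n) :
    F α (m * n) = F α m * F α n := by
  unfold F
  rw [Nat.cast_mul, Complex.natCast_mul_natCast_cpow]
  have h1 : (-1 : ℂ) ^ (m * n + 1) = (-1 : ℂ) ^ (m + 1) * (-1 : ℂ) ^ (n + 1) := by
    rw [← pow_add]
    rcases Nat.even_or_odd m with he | ho
    · have hn' : Odd n := by
        by_contra h
        rw [Nat.not_odd_iff_even] at h
        have h2 : 2 ∣ Nat.gcd m n := Nat.dvd_gcd he.two_dvd h.two_dvd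
        rw [hc] at h2
        omega
      have e1 : Odd (m * n + 1) := (he.mul_right n).add_one
      have e2 : Odd (m + 1 + (n + 1)) := by
        have : Even (n + 1) := hn'.add_one
        exact (he.add_one).add_even this
      rw [e1.neg_one_pow, e2.neg_one_pow]
    · rcases Nat.even_or_odd n with he' | ho'
      · have e1 : Odd (m * n + 1) := (he'.mul_left m).add_one
        have e2 : Odd (m + 1 + (n + 1)) := (ho.add_one).add_odd (he'.add_one)
        rw [e1.neg_one_pow, e2.neg_one_pow]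
      · have e1 : Even (m * n + 1) := (ho.mul ho').add_one
        have e2 : Even (m + 1 + (n + 1)) := (ho.add_one).add (ho'.add_one)
        rw [e1.neg_one_pow, e2.neg_one_pow]
  rw [h1]
  ring

theorem F_one (α : ℂ) : F α 1 = 1 := by
  unfold F
  simp

theorem pow_cpow (α : ℂ) (p k : ℕ) : (((p ^ k : ℕ) : ℂ)) ^ (-α) = ((p : ℂ) ^ (-α)) ^ k := by
  induction k with
  | zero => simp
  | succ k ih =>
    rw [pow_succ, Nat.cast_mul, Complex.natCast_mul_natCast_cpow, ih, pow_succ]

theorem F_local (α : ℂ) (h0 : 0 < α.re) (h1 : α.re < 1) (p : ℕ) (hp : p.Prime) :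
    ∃ L : ℂ, L ≠ 0 ∧ Tendsto (fun K : ℕ => ∑ k ∈ range K, F α (p ^ k)) atTop (𝓝 L) := by
  set q : ℂ := (p : ℂ) ^ (-α) with hq
  have hqn : ‖q‖ = (p : ℝ) ^ (-α.re) := by
    rw [hq, Complex.norm_natCast_cpow_of_pos hp.pos]
    simp
  have hp1 : (1 : ℝ) < p := by exact_mod_cast hp.one_lt
  have hq1 : ‖q‖ < 1 := by
    rw [hqn]
    exact Real.rpow_lt_one_of_one_lt_of_neg hp1 (by linarith)
  have hne : 1 - q ≠ 0 := by
    intro h
    have : q = 1 := by linear_combination -h
    rw [this] at hq1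
    simp at hq1
  have hgeo : Tendsto (fun K : ℕ => ∑ k ∈ range K, q ^ k) atTop (𝓝 (1 - q)⁻¹) :=
    (hasSum_geometric_of_norm_lt_one hq1).tendsto_sum_nat
  rcases hp.eq_two_or_odd' with h2 | hodd
  · refine ⟨2 - (1 - q)⁻¹, ?_, ?_⟩
    · intro h
      have h3 : 2 * q = 1 := by
        field_simp at h
        linear_combination -h
      have h4 : ‖(2 : ℂ) * q‖ = 1 := by rw [h3]; simp
      rw [norm_mul, hqn, h2] at h4
      have h5 : ‖(2 : ℂ)‖ = 2 := by simp
      rw [h5] at h4
      have h6 : (2 : ℝ) * ((2 : ℕ) : ℝ) ^ (-α.re) = 2 ^ (1 - α.re) := by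
        rw [sub_eq_add_neg, Real.rpow_add two_pos, Real.rpow_one]
        norm_num
      rw [h6] at h4
      have h7 : (1 : ℝ) < 2 ^ (1 - α.re) := Real.one_lt_rpow one_lt_two (by linarith)
      linarith
    · have h3 := (tendsto_const_nhds (x := (2 : ℂ)) (f := atTop)).sub hgeo
      refine h3.congr' ?_
      filter_upwards [eventually_ge_atTop 1] with K hK
      obtain ⟨K, rfl⟩ : ∃ J, K = J + 1 := ⟨K - 1, by omega⟩
      rw [Finset.sum_range_succ', Finset.sum_range_succ']
      have h4 : ∀ k ∈ range K, F α (p ^ (k + 1)) = - q ^ (k + 1) := by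
        intro k _
        unfold F
        rw [pow_cpow, ← hq]
        have h5 : Odd (p ^ (k + 1) + 1) := by
          rw [h2]
          exact ((even_two).pow_of_ne_zero (by omega)).add_one
        rw [h5.neg_one_pow]
        ring
      rw [Finset.sum_congr rfl h4, Finset.sum_neg_distrib]
      simp only [pow_zero, F_one]
      ring
  · refine ⟨(1 - q)⁻¹, inv_ne_zero hne, ?_⟩
    refine hgeo.congr fun K => ?_
    apply Finset.sum_congr rfl
    intro k _
    unfold F
    rw [pow_cpow, ← hq]
    have h5 : Even (p ^ k + 1) := (hodd.pow).add_one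
    rw [h5.neg_one_pow, one_mul]

theorem task_NRH : Pool.Agent.W76.MO.T_NRH := by
  intro hRH
  obtain ⟨α, ha, ha1, hz⟩ := exists_zero hRH
  have h0 : 0 < α.re := by linarith
  have hG := G_zero α h0 ha1 hz
  have hC : 0 ≤ ‖α‖ / α.re := div_nonneg (norm_nonneg _) h0.le
  refine ⟨F α, ⟨F_one α, F_mul α, ?_, F_local α h0 ha1⟩, α.re - 1 / 2,
    (‖α‖ / α.re + 1) * 2 ^ α.re, by linarith, by positivity, ?_⟩
  · rw [tendsto_zero_iff_norm_tendsto_zero]
    have h1 : Tendsto (fun N : ℕ => (‖α‖ / α.re + 1) * (N : ℝ) ^ (-α.re)) atTop (𝓝 0) := by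
      have h2 := ((tendsto_rpow_neg_atTop h0).comp tendsto_natCast_atTop_atTop).const_mul
        (‖α‖ / α.re + 1)
      rw [mul_zero] at h2
      exact h2
    refine squeeze_zero' (Eventually.of_forall fun _ => norm_nonneg _) ?_ h1
    filter_upwards [eventually_ge_atTop 1] with N hN
    exact partial_bound α h0 hG N hN
  · intro x hx
    unfold partialSum
    have hN : 1 ≤ ⌊x⌋₊ := Nat.le_floor (by exact_mod_cast hx)
    refine (partial_bound α h0 hG _ hN).trans ?_
    have h1 : x / 2 ≤ (⌊x⌋₊ : ℝ) := by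
      have h2 := Nat.lt_floor_add_one x
      have h3 : (1 : ℝ) ≤ (⌊x⌋₊ : ℝ) := by exact_mod_cast hN
      linarith
    have h4 : (⌊x⌋₊ : ℝ) ^ (-α.re) ≤ (x / 2) ^ (-α.re) :=
      Real.rpow_le_rpow_of_nonpos (by linarith) h1 (by linarith)
    have h5 : (x / 2) ^ (-α.re) = 2 ^ α.re * x ^ (-(1 / 2 : ℝ) - (α.re - 1 / 2)) := by
      rw [Real.div_rpow (by linarith) two_pos.le, Real.rpow_neg two_pos.le, div_inv_eq_mul,
        show (-(1 / 2 : ℝ) - (α.re - 1 / 2)) = -α.re by ring]
      ring
    rw [h5] at h4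
    calc (‖α‖ / α.re + 1) * (⌊x⌋₊ : ℝ) ^ (-α.re)
        ≤ (‖α‖ / α.re + 1) * (2 ^ α.re * x ^ (-(1 / 2 : ℝ) - (α.re - 1 / 2))) := by
          apply mul_le_mul_of_nonneg_left h4 (by linarith)
      _ = _ := by ring

end Pool.Agent.W86.MO
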